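import Pool.Agent.Helper71_HNF.Main

/-!
# In every Polish group which is not locally compact there is a generalized Haar null set which is
not Haar null
-/

set_option autoImplicit false

open MeasureTheory

namespace Pool.Agent.Results.MP_921371_lc.AllPolishGroups

/-- universally measurable: measurable for the completion of every σ-finite Borel measure -/
def UniversallyMeasurable {G : Type} [MeasurableSpace G] (B : Set G) : Prop :=
  ∀ ν : Measure G, SigmaFinite ν → NullMeasurableSet B ν

/-- Haar null: contained in a Borel set all of whose two-sided translates are null for one Borel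
probability measure -/
def HaarNull {G : Type} [Group G] [MeasurableSpace G] (A : Set G) : Prop :=
  ∃ B : Set G, MeasurableSet B ∧ A ⊆ B ∧ ∃ μ : Measure G, IsProbabilityMeasure μ ∧
    ∀ g h : G, μ ((fun x => g * x * h) '' B) = 0

/-- generalized Haar null: the same with a universally measurable set instead of a Borel set -/
def GeneralizedHaarNull {G : Type} [Group G] [MeasurableSpace G] (A : Set G) : Prop :=
  ∃ B : Set G, UniversallyMeasurable B ∧ A ⊆ B ∧ ∃ μ : Measure G, IsProbabilityMeasure μ ∧
    ∀ g h : G, μ ((fun x => g * x * h) '' B) = 0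

theorem um_sigmaFinite {G : Type} [MeasurableSpace G] {B : Set G}
    (h : ∀ ν : Measure G, IsProbabilityMeasure ν → NullMeasurableSet B ν) :
    UniversallyMeasurable B := by
  intro ν hν
  rcases eq_zero_or_neZero ν with h0 | h0
  · rw [h0]
    exact NullMeasurableSet.of_null (by simp)
  · exact (h ν.toFinite inferInstance).mono_ac (absolutelyContinuous_toFinite ν)

/-- Let `G` be a Polish group which is not locally compact. Then the Haar null subsets of `G` form
a proper subfamily of the generalized Haar null subsets of `G`. -/
theorem result (G : Type) [Group G] [TopologicalSpace G] [IsTopologicalGroup G] [PolishSpace G]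
    [MeasurableSpace G] [BorelSpace G] (hlc : ¬ LocallyCompactSpace G) :
    (∀ A : Set G, HaarNull A → GeneralizedHaarNull A) ∧
      ∃ A : Set G, GeneralizedHaarNull A ∧ ¬ HaarNull A := by
  refine ⟨?_, ?_⟩
  · rintro A ⟨B, hB, hAB, μ, hμ, hn⟩
    exact ⟨B, fun ν _ => hB.nullMeasurableSet, hAB, μ, hμ, hn⟩
  · obtain ⟨A, ⟨B, hB, hAB, μ, hμ, hn⟩, hA⟩ := Pool.Agent.HNF.main G hlc
    exact ⟨A, ⟨B, um_sigmaFinite hB, hAB, μ, hμ, hn⟩, hA⟩

end Pool.Agent.Results.MP_921371_lc.AllPolishGroups
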